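import Pool.Agent.Lib.MP_fe5cb4_co.FCT.D.T5

/-!
Proofs of the entries 0 to 7 for hubs of degree 5.
-/

set_option autoImplicit false
set_option maxRecDepth 100000
set_option exponentiation.threshold 1000

namespace Pool.Agent.FCT.D

open Dis

def l5_0 : List ℕ := [nat_lit 0x3ff0a00000001,
  nat_lit 0x3ff0a00000003,
  nat_lit 0x1f879400000005,
  nat_lit 0x1f828000000007,
  nat_lit 0x1f828000000009,
  nat_lit 0x40000000400000850000000040000104200007050000070000000000400000004000008000000000400000850000009400000000400000004000009400000000400000c420000714000007000000000040000000400000800000000040000094000000850000008a00000044200000042000008a0000078500000000400000004000008500000000400000c020000705000007000000004420000785000000002000008a00000794000000004000008420000705000000442000078500000000400000432000070500000003200007850000008a00000041200007140000000120000794000007800,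
  nat_lit 0x4000000040000000400001636000070000000000400001416000070f0000079400000000400000004000000040000163600007000000079400000000400001606000070f0000000040000144600007050000078a000000004000000040000000400001606000070f0000078a0000000040000162600007050000000040000142600007140000078000000000400001616000078500000000400001406000078f0,
  nat_lit 0x40000000400001846000070500000000400001836000070000000000400001826000071400000000400001816000070f00000000400001806000070a0]

theorem m5_0 (hs : StRun) (hg : GOk rs 5 200 g5) (h : U5 0) : U5 8 :=
  st5 hs hg l5_0 0 7 (by decide +kernel) <|
  h

end Pool.Agent.FCT.D
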