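import Pool.Agent.Lib.MP_fe5cb4_co.FCT.D.T6

/-!
Proofs of the entries 0 to 16 for hubs of degree 6.
-/

set_option autoImplicit false
set_option maxRecDepth 100000
set_option exponentiation.threshold 1000

namespace Pool.Agent.FCT.D

open Dis

def l6_0 : List ℕ := [nat_lit 0x1f8a0f00000003,
  nat_lit 0x53f0f0000000b,
  nat_lit 0x64a150000000d,
  nat_lit 0x1f8a190000000f,
  nat_lit 0x1450600000011,
  nat_lit 0x400000004000000040000755000000004000000040000755000007410000079a0000000040000000400000004000079a0000075500000705000000004000000040000000400007900000078b00000000400000004000075500000000400000004000075500000741000001012000078b0000079a000000c42000070500000000400000004000000040000750000000004000000040000750000007460000078b00000000400000004000075500000000400000004000075500000741000000812000078b0000079a00000043200007050000008a0000070a0,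
  nat_lit 0x1f8a1900000013,
  nat_lit 0x64a1500000015,
  nat_lit 0x4000000040000000400000850000000040000000400000850000000040000000400000850000079a0000079500000700000000004000000040000085000000004000000040000085000000004000000040000085000007900000078b0000000040000000400000004000079a00000795000000004000000040000790000001c12000079a0000078b0000018420000705000007000000070a00000000400001646000078a00000000400001406000078000000000400000442000070a0000004220000700000000042000078a000000022000078000000785000000402000071400000000200007940,
  nat_lit 0x1f828000000017,
  nat_lit 0x400000004000000040000755000000004000000040000755000007410000079a00000000400000004000008a000000004000008f00000000400000004000008a000000004000008f00000000400000004000008a000000004000008f0000079a000007410000071400000000400000004000008f000000004000008a00000000400000004000008f000000004000008a00000000400000004000008f000000004000008a0000079a0000075500000000400000004000008f00000000400002412000070f0000070a000007140000070500000000400002036000078a00000001200007940,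
  nat_lit 0x50c9500000019,
  nat_lit 0x4000000040000000400000004000078b000007860000070f0000000040000000400000004000078b00000786000000004000070f000007050000000040000000400000004000079a000007950000000040000000400000004000079a00000795000000004000000040000786000002e22000079a0000078b0000070f000000c320000705000007000000000040000000400000004000079a0000079500000000400007000000000040000000400000004000079a0000079500000000400000004000078b000002c02000079500000786000000c32000070000000705000000c02000070f000007140,
  nat_lit 0x1f82800000001b,
  nat_lit 0x400000004000000040000085000000004000008f000000004000000040000085000000004000008f000000004000000040000085000000004000008f0000079a000007950000071400000000400000004000008f000000004000008500000000400000004000008f000000004000008500000000400000004000008f00000000400000850000079a0000079500000000400000004000008f00000000400003402000070f00000705000007140000070000000000400003006000008a0,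
  nat_lit 0x40000000400000004000008f00000000400000004000008f00000000400000004000008f0000079a00000795000007140000000040000000400000850000000040000000400000850000000040000000400000850000079a0000079500000000400000004000008f00000000400000004000008f00000085000007140000070000000000400003806000070a00000000400002a26000079400000000400002806000078000000000400002026000078500000000400002006000078f0,
  nat_lit 0x40000000400003c56000079400000000400003c46000078f00000000400003c36000078a00000000400003c26000078500000000400003c16000078000000000400003c0600007990]

theorem m6_0 (hs : StRun) (hg : GOk rs 6 200 g6) (h : U6 0) : U6 17 :=
  st6 hs hg l6_0 0 16 (by decide +kernel) <|
  h

end Pool.Agent.FCT.D
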