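import Pool.Agent.Lib.MP_fe5cb4_co.FCT.Dis.Sound
import Pool.Agent.Lib.MP_fe5cb4_co.FCT.D.P5_0
import Pool.Agent.Lib.MP_fe5cb4_co.FCT.D.P6_0
import Pool.Agent.Lib.MP_fe5cb4_co.FCT.D.P7_0
import Pool.Agent.Lib.MP_fe5cb4_co.FCT.D.P7_1
import Pool.Agent.Lib.MP_fe5cb4_co.FCT.D.P7_2
import Pool.Agent.Lib.MP_fe5cb4_co.FCT.D.P7_3
import Pool.Agent.Lib.MP_fe5cb4_co.FCT.D.P8_0
import Pool.Agent.Lib.MP_fe5cb4_co.FCT.D.P8_1
import Pool.Agent.Lib.MP_fe5cb4_co.FCT.D.P8_2
import Pool.Agent.Lib.MP_fe5cb4_co.FCT.D.P8_3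
import Pool.Agent.Lib.MP_fe5cb4_co.FCT.D.P9_0
import Pool.Agent.Lib.MP_fe5cb4_co.FCT.D.P9_1
import Pool.Agent.Lib.MP_fe5cb4_co.FCT.D.P9_2
import Pool.Agent.Lib.MP_fe5cb4_co.FCT.D.P10_0
import Pool.Agent.Lib.MP_fe5cb4_co.FCT.D.P11_0

/-!
The discharging argument.
-/

set_option autoImplicit false
set_option maxRecDepth 100000
set_option exponentiation.threshold 1000

namespace Pool.Agent.FCT.D

open Dis

theorem u5 : U5 8 :=
  m5_0 run_all (gok_all (by decide) v5) <| fun _ _ _ _ _ _ _ c => absurd c (Nat.not_lt_zero _)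

theorem u6 : U6 17 :=
  m6_0 run_all (gok_all (by decide) v6) <| fun _ _ _ _ _ _ _ c => absurd c (Nat.not_lt_zero _)

theorem u7 : U7 21464 :=
  m7_3 run_all (gok_all (by decide) v7) <| m7_2 run_all (gok_all (by decide) v7) <| m7_1 run_all (gok_all (by decide) v7) <| m7_0 run_all (gok_all (by decide) v7) <| fun _ _ _ _ _ _ _ c => absurd c (Nat.not_lt_zero _)

theorem u8 : U8 15315 :=
  m8_3 run_all (gok_all (by decide) v8) <| m8_2 run_all (gok_all (by decide) v8) <| m8_1 run_all (gok_all (by decide) v8) <| m8_0 run_all (gok_all (by decide) v8) <| fun _ _ _ _ _ _ _ c => absurd c (Nat.not_lt_zero _)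

theorem u9 : U9 7980 :=
  m9_2 run_all (gok_all (by decide) v9) <| m9_1 run_all (gok_all (by decide) v9) <| m9_0 run_all (gok_all (by decide) v9) <| fun _ _ _ _ _ _ _ c => absurd c (Nat.not_lt_zero _)

theorem u10 : U10 2474 :=
  m10_0 run_all (gok_all (by decide) v10) <| fun _ _ _ _ _ _ _ c => absurd c (Nat.not_lt_zero _)

theorem u11 : U11 414 :=
  m11_0 run_all (gok_all (by decide) v11) <| fun _ _ _ _ _ _ _ c => absurd c (Nat.not_lt_zero _)

theorem dis_thm (V : Type) [Fintype V] (T : Tri V) (M : MC T) (B : Birk T)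
    (hq : ∀ j < 1246, XQ T (qz.get j)) : False := by
  refine fin_thm V T M B rs 200 400 (by decide) (by decide) (by decide) fun d h5 h11 => ?_
  interval_cases d
  · exact top5 ▸ u5 V T M B hq 7 (by decide)
  · exact top6 ▸ u6 V T M B hq 16 (by decide)
  · exact top7 ▸ u7 V T M B hq 21463 (by decide)
  · exact top8 ▸ u8 V T M B hq 15314 (by decide)
  · exact top9 ▸ u9 V T M B hq 7979 (by decide)
  · exact top10 ▸ u10 V T M B hq 2473 (by decide)
  · exact top11 ▸ u11 V T M B hq 413 (by decide)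

end Pool.Agent.FCT.D
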