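import Pool.Agent.Lib.MP_fe5cb4_co.FCT.Dis.Defs

/-!
The rules.
-/

set_option autoImplicit false
set_option maxRecDepth 100000
set_option exponentiation.threshold 1000

namespace Pool.Agent.FCT.D

open Dis

def rs : List ℕ := [nat_lit 122920, nat_lit 126337064, nat_lit 128966967336, nat_lit 141670994486209733451816, nat_lit 141670994486209733447720, nat_lit 4665698085075329848172584, nat_lit 4665698085075329848168488, nat_lit 4363466630171676581023784, nat_lit 4251765694484, nat_lit 135235661145296916, nat_lit 4255926444072, nat_lit 135240054896840744, nat_lit 145071098353759353014005782, nat_lit 4247454691331, nat_lit 128966963214, nat_lit 135541362791324677183090693, nat_lit 145203324615275971407753234, nat_lit 4665698085075338320654347, nat_lit 4665698085075338320637963, nat_lit 4127044644882, nat_lit 145071102677214583241289750, nat_lit 4256044642321, nat_lit 132708282370, nat_lit 4127313047560, nat_lit 4327681619361509381, nat_lit 4327681619227291653, nat_lit 4327681615737630725, nat_lit 135108113233063955, nat_lit 135108113228869651, nat_lit 145139293433863, nat_lit 141670994486209876045830, nat_lit 4323877858767745026, nat_lit 4323877858633527298, nat_lit 4323877855143866370, nat_lit 145071098353772818395017219, nat_lit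 4039447394923261954, nat_lit 4039447394789044226, nat_lit 4665698085079057765478404, nat_lit 4665698085079057765462020, nat_lit 4398164455427, nat_lit 145071098353763747306647555, nat_lit 135251341533982725, nat_lit 135251341529788421, nat_lit 135251341420736517, nat_lit 135240050601766914, nat_lit 135240050597572610, nat_lit 4126516162568, nat_lit 153935512285186, nat_lit 4427218700839490629634, nat_lit 4427218700839222194178, nat_lit 4427218700838685323266, nat_lit 145071098357696150651777027, nat_lit 3972576784386, nat_lit 4323459494593409026, nat_lit 4323459494459191298, nat_lit 3964506943490, nat_lit 72057710128345089, nat_lit 72057710124150785, nat_lit 72057710015098881, nat_lit 1028112]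

end Pool.Agent.FCT.D
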